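import Mathlib

set_option autoImplicit false
open Set Filter Topology MeasureTheory Metric Complex
open scoped ContDiff ENNReal Convolution Real

namespace Pool.Agent.H.MP_084a52_an

theorem weyl {Ω : Set ℂ} (ho : IsOpen Ω) {f : ℂ → ℂ} (cf : ContinuousOn f Ω)
    (H : ∀ φ : ℂ → ℝ, ContDiff ℝ ∞ φ → HasCompactSupport φ → tsupport φ ⊆ Ω →
      ∫ x in Ω, fderiv ℝ φ x I • f x = I • ∫ x in Ω, fderiv ℝ φ x 1 • f x) :
    DifferentiableOn ℂ f Ω := fun x0 hx => by
  obtain ⟨R', R0, hR⟩ := nhds_basis_closedBall.mem_iff.1 (ho.mem_nhds hx)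
  obtain ⟨R, rfl⟩ : ∃ R, R' = 2 * R := ⟨R' / 2, by ring⟩
  have Rp : 0 < R := by linarith
  have mK : MeasurableSet (closedBall x0 (2 * R)) := measurableSet_closedBall
  have cK := isCompact_closedBall x0 (2 * R)
  set w := (closedBall x0 (2 * R)).indicator f
  have iw : Integrable w := (integrable_indicator_iff mK).2 ((cf.mono hR).integrableOn_compact cK)
  have p : ∀ n : ℕ, 0 < R / (n + 1) := fun n => by positivity
  have p1 : ∀ n : ℕ, R / (n + 1) ≤ R := fun n => div_le_self Rp.le (by simp)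
  let b : ℕ → ContDiffBump (0 : ℂ) := fun n => ⟨R / (n + 1) / 2, R / (n + 1), half_pos (p n), half_lt_self (p n)⟩
  have sb : ∀ n : ℕ, ∀ z ∈ ball x0 R, closedBall z (R / (n + 1)) ⊆ closedBall x0 (2 * R) := fun n z hz =>
    closedBall_subset_closedBall' (by linarith [mem_ball.1 hz, p1 n])
  have key := TendstoLocallyUniformlyOn.differentiableOn (φ := atTop) (f := f) (U := ball x0 R)
    (F := fun n => (b n).normed volume ⋆[ContinuousLinearMap.lsmul ℝ ℝ, volume] w)
    (TendstoUniformlyOn.tendstoLocallyUniformlyOn ?_) (.of_forall fun n z hz => ?_) isOpen_ball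
  · exact (key.differentiableAt (ball_mem_nhds _ Rp)).differentiableWithinAt
  · rw [Metric.tendstoUniformlyOn_iff]
    intro ε hε
    obtain ⟨δ, d0, hδ⟩ := Metric.uniformContinuousOn_iff_le.1
      (cK.uniformContinuousOn_of_continuous (cf.mono hR)) (ε / 2) (half_pos hε)
    have : Tendsto (fun n : ℕ => R / (n + 1)) atTop (𝓝 0) := by
      simpa [div_eq_mul_inv] using (tendsto_one_div_add_atTop_nhds_zero_nat (𝕜 := ℝ)).const_mul R
    filter_upwards [this.eventually (ge_mem_nhds d0)] with n hn z hz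
    have zm := sb n z hz (mem_closedBall_self (p n).le)
    have := (b n).dist_normed_convolution_le (x₀ := z) (ε := ε / 2) iw.1 fun y hy => by
      have ym := sb n z hz (ball_subset_closedBall hy)
      simp only [w, indicator_of_mem zm, indicator_of_mem ym]
      exact hδ y ym z zm ((mem_ball.1 hy).le.trans hn)
    rw [dist_comm, show w z = f z from indicator_of_mem zm _] at this
    linarith
  have s1 : ContDiff ℝ ∞ ((b n).normed volume) := (b n).contDiff_normed
  have s2 : HasCompactSupport ((b n).normed volume) := (b n).hasCompactSupport_normed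
  have s3 : tsupport ((b n).normed volume) = closedBall 0 (R / (n + 1)) := (b n).tsupport_normed_eq
  generalize (b n).normed volume = ψ at *
  have d := s2.hasFDerivAt_convolution_right (ContinuousLinearMap.lsmul ℝ ℝ).flip iw.locallyIntegrable
    (s1.of_le (by simp)) z
  rw [convolution_flip] at d
  have t : tsupport (fun y => ψ (z - y)) ⊆ closedBall x0 (2 * R) := fun y hy => sb n z hz (by
    have := tsupport_comp_subset_preimage ψ (f := fun y => z - y) (by fun_prop) hy
    rw [s3] at this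
    simpa [dist_eq_norm, norm_sub_rev] using this)
  have e : ∀ v, fderiv ℝ (ψ ⋆[ContinuousLinearMap.lsmul ℝ ℝ, volume] w) z v =
      -∫ y in Ω, fderiv ℝ (fun y => ψ (z - y)) y v • f y := fun v => by
    rw [d.fderiv, convolution_precompR_apply _ iw.locallyIntegrable (s2.fderiv ℝ)
      (s1.continuous_fderiv (by simp)), convolution_def, ← integral_neg, ← integral_indicator ho.measurableSet]
    congr 1; ext y
    have k : fderiv ℝ (fun y => ψ (z - y)) y v = -fderiv ℝ ψ (z - y) v := by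
      rw [show (fun y => ψ (z - y)) = ψ ∘ HSub.hSub z from rfl,
        (((s1.differentiable (by simp)) (z - y)).hasFDerivAt.comp y ((hasFDerivAt_id y).const_sub z)).fderiv]
      simp
    by_cases hy : y ∈ closedBall x0 (2 * R)
    · simp [w, hy, hR hy, k]
    · have : fderiv ℝ (fun y => ψ (z - y)) y v = 0 := image_eq_zero_of_notMem_tsupport
        (f := fun y => fderiv ℝ (fun y => ψ (z - y)) y v) fun j => hy (t (tsupport_fderiv_apply_subset ℝ _ j))
      simp [w, hy, this, indicator]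
  refine (differentiableAt_complex_iff_differentiableAt_real.2 ⟨d.differentiableAt, ?_⟩).differentiableWithinAt
  rw [e, e, H (fun y => ψ (z - y)) (by fun_prop) (s2.comp_homeomorph (Homeomorph.subLeft z)) (t.trans hR), smul_neg]

noncomputable def L (z : ℂ) : ℂ := log ((1 + z) / (1 - z))
noncomputable def E (w : ℂ) : ℂ := (exp w - 1) / (exp w + 1)
def S : Set ℂ := {w | |w.im| < π / 2}

lemma S_open : IsOpen S := isOpen_lt (by fun_prop) continuous_const

lemma re_pos {z : ℂ} (hz : z ∈ ball (0 : ℂ) 1) : 1 - z ≠ 0 ∧ 0 < ((1 + z) / (1 - z)).re := by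
  have h := mem_ball_zero_iff.1 hz
  have h1 : 1 - z ≠ 0 := fun k => by rw [← sub_eq_zero.1 k] at h; simp at h
  refine ⟨h1, ?_⟩
  have h2 : z.re * z.re + z.im * z.im < 1 := by
    rw [← normSq_apply, normSq_eq_norm_sq]; nlinarith [norm_nonneg z]
  rw [div_re, ← add_div]
  exact div_pos (by simp; nlinarith) (normSq_pos.2 h1)

lemma LS {z : ℂ} (hz : z ∈ ball (0 : ℂ) 1) : L z ∈ S := by
  simp only [S, L, mem_setOf, log_im]
  exact abs_arg_lt_pi_div_two_iff.2 (.inl (re_pos hz).2)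

lemma EL {z : ℂ} (hz : z ∈ ball (0 : ℂ) 1) : E (L z) = z := by
  obtain ⟨h1, h2⟩ := re_pos hz
  rw [E, L, exp_log fun k => by simp [k] at h2]
  field_simp; ring

lemma Ld {z : ℂ} (hz : z ∈ ball (0 : ℂ) 1) : AnalyticAt ℂ L z :=
  AnalyticAt.clog (AnalyticAt.div (by fun_prop) (by fun_prop) (re_pos hz).1) (.inl (re_pos hz).2)

lemma exp_re_pos {w : ℂ} (hw : w ∈ S) : 0 < (exp w).re := by
  rw [exp_re]
  exact mul_pos (Real.exp_pos _) (Real.cos_pos_of_mem_Ioo (abs_lt.1 hw))

lemma den {w : ℂ} (hw : w ∈ S) : exp w + 1 ≠ 0 := fun k => by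
  have := congrArg re k
  simp only [add_re, one_re, zero_re] at this
  linarith [exp_re_pos hw]

lemma ED {w : ℂ} (hw : w ∈ S) : E w ∈ ball (0 : ℂ) 1 := by
  rw [mem_ball_zero_iff, E, norm_div, div_lt_one (norm_pos_iff.2 (den hw)),
    ← sq_lt_sq₀ (norm_nonneg _) (norm_nonneg _), ← normSq_eq_norm_sq, ← normSq_eq_norm_sq]
  have := exp_re_pos hw
  simp only [normSq_apply, sub_re, add_re, sub_im, add_im, one_re, one_im]
  nlinarith

lemma LE {w : ℂ} (hw : w ∈ S) : L (E w) = w := by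
  have := den hw
  have h := abs_lt.1 (show |w.im| < π / 2 from hw)
  rw [L, E, show (1 + (exp w - 1) / (exp w + 1)) / (1 - (exp w - 1) / (exp w + 1)) = exp w by
    field_simp; ring, log_exp (by linarith [Real.pi_pos]) (by linarith [Real.pi_pos])]

lemma Ed {w : ℂ} (hw : w ∈ S) : AnalyticAt ℂ E w := AnalyticAt.div (by fun_prop) (by fun_prop) (den hw)

lemma Ele {d : ℤ} (h : ‖E d‖ ≤ ‖E 1‖) : |d| ≤ 1 := by
  have e : ∀ x : ℝ, ‖E x‖ = |Real.exp x - 1| / (Real.exp x + 1) := fun x => by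
    rw [E, show (exp x - 1) / (exp x + 1) = ((Real.exp x - 1) / (Real.exp x + 1) : ℝ) by simp,
      norm_real, Real.norm_eq_abs, abs_div, abs_of_pos (by positivity : 0 < Real.exp x + 1)]
  have h1 := e 1
  have h2 := e d
  simp only [ofReal_one, ofReal_intCast] at h1 h2
  have e1 : 1 < Real.exp 1 := by simp
  have p := Real.exp_pos (d : ℝ)
  rw [h1, h2, div_le_div_iff₀ (by positivity) (by positivity), abs_of_pos (by linarith : 0 < Real.exp 1 - 1)] at h
  have a1 : Real.exp d ≤ Real.exp 1 := by nlinarith [le_abs_self (Real.exp d - 1)]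
  have a2 : Real.exp 0 ≤ Real.exp (d + 1) := by
    rw [Real.exp_add, Real.exp_zero]; nlinarith [neg_abs_le (Real.exp d - 1)]
  rw [Real.exp_le_exp] at a1 a2
  have b1 : d ≤ 1 := by exact_mod_cast a1
  have b2 : 0 ≤ d + 1 := by exact_mod_cast a2
  rw [abs_le]; omega

lemma walk (σ : ℤ → ℤ) (hi : Function.Injective σ) (h : ∀ n, |σ (n + 1) - σ n| ≤ 1) : ∃ n, σ n = 1 := by
  have h1 : ∀ n, σ (n + 1) ≠ σ n := fun n k => by have := hi k; omega
  have h2 : ∀ n, σ (n + 1 + 1) - σ (n + 1) = σ (n + 1) - σ n := fun n => by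
    have a : σ (n + 1 + 1) ≠ σ n := fun k => by have := hi k; omega
    have := abs_le.1 (h n); have := abs_le.1 (h (n + 1)); have := h1 n; have := h1 (n + 1); omega
  have h3 : ∀ n, σ (n + 1) - σ n = σ 1 - σ 0 := fun n => by
    induction n using Int.induction_on with
    | zero => simp
    | succ n ih => rw [h2, ih]
    | pred n ih => have := h2 (-n - 1); rw [sub_add_cancel] at this ⊢; omega
  have h4 : ∀ n, σ n = σ 0 + n * (σ 1 - σ 0) := fun n => by
    induction n using Int.induction_on with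
    | zero => simp
    | succ n ih => have := h3 n; linarith
    | pred n ih => have := h3 (-n - 1); rw [sub_add_cancel] at this; linarith
  have := abs_le.1 (h 0); have := h1 0
  rw [zero_add] at *
  rcases (by omega : σ 1 - σ 0 = 1 ∨ σ 1 - σ 0 = -1) with k | k
  · exact ⟨1 - σ 0, by rw [h4, k]; ring⟩
  · exact ⟨σ 0 - 1, by rw [h4, k]; ring⟩

lemma nsc {U : Set ℂ} (ho : IsOpen U) {g : ℂ → ℂ} (cg : ContinuousOn g U) (h0 : 0 ∉ g '' U) {β : ℝ → ℂ}
    (cb : Continuous β) (hb : ∀ t, β t ∈ U) (p : β (2 * π) = β 0)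
    (e : ∀ t, g (β t) = g (β 0) * exp (t * I)) : ¬ IsSimplyConnected U := fun h => by
  obtain ⟨l, cl, hl⟩ := exists_continuousOn_eqOn_exp_comp h ho cg h0
  have := isCoveringMap_exp.eq_of_comp_eq (cl.comp_continuous cb hb)
    (g₂ := fun t : ℝ => l (β 0) + t * I) (by fun_prop) (funext fun t => Subtype.ext (by
      have a := hl (hb t); have b := hl (hb 0)
      simp only [Function.comp] at a b ⊢
      rw [a, exp_add, b, ← e])) 0 (by simp)
  have := congrFun this (2 * π)
  simp [p] at this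

def Z : Set ℂ := range ((↑) : ℤ → ℂ)
def O' : Set ℂ := S \ ((↑) : ℤ → ℂ) '' {1}ᶜ
def O : Set ℂ := ball 0 1 ∩ L ⁻¹' Zᶜ

lemma intS (n : ℤ) : ball (n : ℂ) (1 / 2) ⊆ S := fun w hw => by
  have := (abs_im_le_norm (w - n)).trans_lt (mem_ball_iff_norm.1 hw)
  simp only [sub_im, intCast_im, sub_zero] at this
  exact this.trans (by linarith [Real.pi_gt_three])

lemma intU {n m : ℤ} {w : ℂ} (h1 : w ∈ ball (n : ℂ) (1 / 2)) (h2 : w ∈ ball (m : ℂ) (1 / 2)) : n = m := by
  have := (dist_triangle_left (n : ℂ) m w).trans_lt (add_lt_add (mem_ball.1 h1) (mem_ball.1 h2))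
  rw [dist_eq_norm, ← Int.cast_sub, norm_intCast, ← Int.cast_abs] at this
  have h : |n - m| < 1 := by exact_mod_cast this.trans_eq (by norm_num : (1 / 2 + 1 / 2 : ℝ) = (1 : ℤ))
  rw [abs_lt] at h; omega

lemma punct {n : ℤ} {w : ℂ} (h : w ∈ ball (n : ℂ) (1 / 2) \ {(n : ℂ)}) : w ∈ S \ Z :=
  ⟨intS n h.1, fun ⟨m, e⟩ => h.2 (by
    rw [intU h.1 (e ▸ mem_ball_self (by norm_num) : w ∈ ball (m : ℂ) (1 / 2)), ← e]; rfl)⟩

theorem noconf {φ ψ : ℂ → ℂ} (hd : DifferentiableOn ℂ φ (S \ Z)) (m : MapsTo φ (S \ Z) O')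
    (cψ : ContinuousOn ψ O') (li : LeftInvOn ψ φ (S \ Z)) (m' : MapsTo ψ O' (S \ Z)) : False := by
  classical
  have o : IsOpen (S \ Z) := S_open.sdiff isClosed_range_intCast
  have h2 : (0 : ℝ) < 1 / 2 := by norm_num
  let F0 : ℂ → ℂ := fun w => E (φ w)
  have d0 : DifferentiableOn ℂ F0 (S \ Z) := fun w hw =>
    (Ed (m hw).1).differentiableAt.comp_differentiableWithinAt w (hd w hw)
  have i0 : InjOn F0 (S \ Z) := fun a ha b hb e => li.injOn ha hb (by
    rw [← LE (m ha).1, ← LE (m hb).1]; exact congrArg L e)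
  let F : ℂ → ℂ := fun w => if w ∈ Z then limUnder (𝓝[≠] w) F0 else F0 w
  have e0 : ∀ w ∈ S \ Z, F w = F0 w := fun w hw => if_neg hw.2
  have d1 : ∀ n : ℤ, AnalyticAt ℂ F n := fun n => by
    have := differentiableOn_update_limUnder_of_bddAbove (ball_mem_nhds (n : ℂ) h2)
      (d0.mono fun w => punct) ⟨1, by
        rintro _ ⟨w, hw, rfl⟩; exact (mem_ball_zero_iff.1 (ED (m (punct hw)).1)).le⟩
    refine (this.congr fun w hw => ?_).analyticAt (ball_mem_nhds (n : ℂ) h2)
    by_cases k : w = n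
    · subst k; rw [Function.update_self]; exact if_pos ⟨n, rfl⟩
    · rw [Function.update_of_ne k, e0 w (punct ⟨hw, k⟩)]
  have d2 : DifferentiableOn ℂ F S := fun w hw => by
    by_cases k : w ∈ Z
    · obtain ⟨n, rfl⟩ := k; exact (d1 n).differentiableAt.differentiableWithinAt
    · exact ((d0.congr e0).differentiableAt (o.mem_nhds ⟨hw, k⟩)).differentiableWithinAt
  have ev : ∀ n : ℤ, ∀ᶠ w in 𝓝[≠] (n : ℂ), w ∈ S \ Z := fun n =>
    mem_of_superset (sdiff_mem_nhdsWithin_compl (ball_mem_nhds (n : ℂ) h2) _) fun w => punct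
  have op : ∀ n : ℤ, F '' ball n (1 / 2) ∈ 𝓝 (F n) := fun n => by
    rcases (d1 n).eventually_constant_or_nhds_le_map_nhds with k | k
    · have := (ev n).and (mem_nhdsWithin_of_mem_nhds k)
      obtain ⟨a, a1, a2⟩ := this.exists
      obtain ⟨b, ⟨b1, b2⟩, b3⟩ := (this.and (mem_nhdsWithin_of_mem_nhds (isOpen_ne.mem_nhds
        (show (n : ℂ) ≠ a from fun j => a1.2 ⟨n, j⟩)))).exists
      exact (b3 (i0 b1 a1 (by rw [← e0 a a1, ← e0 b b1]; exact b2.trans a2.symm))).elim
    · exact k (image_mem_map (ball_mem_nhds _ h2))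
  have b1 : ∀ n : ℤ, F n ∈ ball (0 : ℂ) 1 := fun n => by
    have c : F n ∈ closedBall (0 : ℂ) 1 := isClosed_closedBall.mem_of_tendsto
      ((d1 n).continuousAt.tendsto.mono_left (nhdsWithin_le_nhds (s := {(n : ℂ)}ᶜ)))
      ((ev n).mono fun w hw => e0 w hw ▸ ball_subset_closedBall (ED (m hw).1))
    rw [← interior_closedBall _ one_ne_zero, mem_interior_iff_mem_nhds]
    refine mem_of_superset (op n) ?_
    rintro _ ⟨w, hw, rfl⟩
    by_cases k : w = n
    · exact k ▸ c
    · exact e0 w (punct ⟨hw, k⟩) ▸ ball_subset_closedBall (ED (m (punct ⟨hw, k⟩)).1)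
  have b2 : MapsTo F S (ball 0 1) := fun w hw => by
    by_cases k : w ∈ Z
    · obtain ⟨n, rfl⟩ := k; exact b1 n
    · exact e0 w ⟨hw, k⟩ ▸ ED (m ⟨hw, k⟩).1
  have sg : ∀ n : ℤ, ∃ s : ℤ, s ≠ 1 ∧ L (F n) = s := fun n => by
    by_contra k
    have k1 : L (F n) ∈ O' := ⟨LS (b1 n), fun ⟨s, s1, s2⟩ => k ⟨s, s1, s2.symm⟩⟩
    have t1 : Tendsto φ (𝓝[≠] (n : ℂ)) (𝓝[O'] (L (F n))) := tendsto_nhdsWithin_iff.2
      ⟨(((Ld (b1 n)).continuousAt.tendsto.comp (d1 n).continuousAt.tendsto).mono_left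
        nhdsWithin_le_nhds).congr' ((ev n).mono fun w hw => by
          simp only [Function.comp, e0 w hw, F0, LE (m hw).1]), (ev n).mono fun w hw => m hw⟩
    have t2 := ((cψ _ k1).tendsto.comp t1).congr' ((ev n).mono fun w hw => li hw)
    exact (m' k1).2 ⟨n, tendsto_nhds_unique (tendsto_id.mono_left nhdsWithin_le_nhds) t2⟩
  choose σ s1 s2 using sg
  refine (walk σ (fun a b e => ?_) fun n => ?_).elim s1
  · have e1 : F a = F b := by rw [← EL (b1 a), ← EL (b1 b), s2, s2, e]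
    obtain ⟨y, ⟨⟨z1, p1, q1⟩, ⟨z2, p2, q2⟩⟩, y0⟩ := Filter.nonempty_of_mem (inter_mem
      (mem_nhdsWithin_of_mem_nhds (t := {F a}ᶜ) (inter_mem (op a) (e1 ▸ op b))) self_mem_nhdsWithin)
    have r1 := punct ⟨p1, fun j => y0 (by rw [← q1, j]; rfl)⟩
    have r2 := punct ⟨p2, fun j => y0 (by rw [← q2, j, e1]; rfl)⟩
    have := i0 r1 r2 (by rw [← e0 _ r1, ← e0 _ r2, q1, q2])
    exact intU p1 (this ▸ p2)
  · have a1 : ∀ z ∈ ball (0 : ℂ) 1, L z + n ∈ S := fun z hz => by simpa [S] using LS hz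
    have a2 : ∀ z ∈ ball (0 : ℂ) 1, L (F (L z + n)) - σ n ∈ S := fun z hz => by
      simpa [S] using LS (b2 (a1 z hz))
    have o1 : (1 : ℂ) ∈ S := by simp [S, Real.pi_pos]
    have := norm_le_norm_of_mapsTo_ball (f := fun z => E (L (F (L z + n)) - σ n)) (R := 1) (z := E 1)
      (fun z hz => by
        have c1 := (d2.differentiableAt (S_open.mem_nhds (a1 z hz))).comp z
          (f := fun z => L z + n) ((Ld hz).differentiableAt.add_const _)
        have c2 := (Ld (b2 (a1 z hz))).differentiableAt.comp z (f := fun z => F (L z + n)) c1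
        exact ((Ed (a2 z hz)).differentiableAt.comp z (f := fun z => L (F (L z + n)) - σ n)
          (c2.sub_const _)).differentiableWithinAt)
      (fun z hz => ball_subset_closedBall (ED (a2 z hz))) (by simp [L, ← s2, E]) (mem_ball_zero_iff.1 (ED o1))
    simp only [LE o1] at this
    rw [show (1 : ℂ) + n = (n + 1 : ℤ) by simp [add_comm], s2, ← Int.cast_sub] at this
    exact Ele this

end Pool.Agent.H.MP_084a52_an
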