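import Pool.Agent.H.MP_084a52_an.A

set_option autoImplicit false
open Set Filter Topology MeasureTheory Metric Complex
open scoped ContDiff ENNReal Real

namespace Pool.Agent.H.MP_084a52_an

noncomputable abbrev χ : ℝ → ℝ := Real.smoothTransition

noncomputable def u (x : ℝ) : ℝ := x + χ x

lemma um : StrictMono u := strictMono_id.add_monotone Real.smoothTransition.monotone

lemma us : Function.Surjective u := by
  have c : Continuous u := continuous_id.add Real.smoothTransition.continuous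
  exact c.surjective (tendsto_atTop_mono (fun x => le_add_of_nonneg_right (Real.smoothTransition.nonneg x))
    tendsto_id) (tendsto_atBot_add_right_of_ge _ 1 tendsto_id Real.smoothTransition.le_one)

noncomputable def v : ℝ → ℝ := (um.orderIsoOfSurjective u us).symm

lemma vc : Continuous v := (um.orderIsoOfSurjective u us).symm.continuous
lemma uv (x : ℝ) : u (v x) = x := (um.orderIsoOfSurjective u us).apply_symm_apply x
lemma vu (x : ℝ) : v (u x) = x := (um.orderIsoOfSurjective u us).symm_apply_apply x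

lemma uint (n : ℤ) : u n = (if n ≤ 0 then n else n + 1 : ℤ) := by
  split_ifs with h
  · simp [u, Real.smoothTransition.zero_of_nonpos (show (n : ℝ) ≤ 0 by exact_mod_cast h)]
  · simp [u, Real.smoothTransition.one_of_one_le (show (1 : ℝ) ≤ n by exact_mod_cast not_le.1 h)]

noncomputable def T (k : ℕ) (w : ℂ) : ℂ := w - k + χ (w.re - k)
noncomputable def T' (k : ℕ) (w : ℂ) : ℂ := (v w.re + k : ℝ) + w.im * I

lemma Tre (k : ℕ) (w : ℂ) : (T k w).re = u (w.re - k) := by simp [T, u]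
lemma Tim (k : ℕ) (w : ℂ) : (T k w).im = w.im := by simp [T]
lemma TT' (k : ℕ) (w : ℂ) : T k (T' k w) = w := Complex.ext (by simp [Tre, T', uv]) (by simp [Tim, T'])
lemma T'T (k : ℕ) (w : ℂ) : T' k (T k w) = w := Complex.ext (by simp [Tre, T', vu]) (by simp [Tim, T'])

lemma Tm (k : ℕ) (w : ℂ) : T k w ∈ O' ↔ w ∈ S \ Z := by
  have a : ∀ n : ℤ, T k n = (if n - k ≤ 0 then n - k else n - k + 1 : ℤ) := fun n =>
    Complex.ext (by rw [Tre, intCast_re, intCast_re, ← uint]; simp) (by rw [Tim, intCast_im, intCast_im])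
  refine and_congr (by simp [S, Tim]) (not_congr ⟨fun ⟨m, m1, e⟩ => ?_, fun ⟨n, e⟩ => ?_⟩)
  · refine ⟨if m ≤ 0 then m + k else m + k - 1, ?_⟩
    rw [← T'T k w, ← e, ← T'T k (Int.cast _), a]
    have : m ≠ 1 := m1
    congr 2; split_ifs <;> omega
  · rw [← e, a]
    refine ⟨_, fun j => ?_, rfl⟩
    rw [mem_singleton_iff] at j
    split_ifs at j <;> omega

lemma Ts (k : ℕ) : ContDiff ℝ 1 (T k) := (contDiff_id.sub contDiff_const).add
  (ofRealCLM.contDiff.comp (Real.smoothTransition.contDiff.comp (reCLM.contDiff.sub contDiff_const)))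

lemma mO {z : ℂ} : z ∈ O ↔ z ∈ ball (0 : ℂ) 1 ∧ L z ∈ S \ Z :=
  ⟨fun h => ⟨h.1, LS h.1, h.2⟩, fun h => ⟨h.1, h.2.2⟩⟩

lemma EO {w : ℂ} (h : w ∈ S \ Z) : E w ∈ O := mO.2 ⟨ED h.1, by rwa [LE h.1]⟩

lemma Lc : ContinuousOn L (ball 0 1) := fun _ hz => (Ld hz).continuousAt.continuousWithinAt

lemma O_open : IsOpen O := Lc.isOpen_inter_preimage isOpen_ball isClosed_range_intCast.isOpen_compl

lemma O'_open : IsOpen O' :=
  S_open.sdiff (isClosedEmbedding_intCast.isClosedMap _ (isClosed_discrete _))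

noncomputable def f (k : ℕ) (z : ℂ) : ℂ := T k (L z)
noncomputable def g (k : ℕ) (w : ℂ) : ℂ := E (T' k w)

lemma fs (k : ℕ) : ContDiffOn ℝ 1 (f k) O := fun z hz =>
  ((Ts k).contDiffAt.comp z ((Ld hz.1).contDiffAt.restrict_scalars ℝ)).contDiffWithinAt

lemma fm (k : ℕ) : MapsTo (f k) O O' := fun _ hz => (Tm k _).2 (mO.1 hz).2

lemma T'm (k : ℕ) {w : ℂ} (h : w ∈ O') : T' k w ∈ S \ Z := (Tm k _).1 (by rwa [TT'])

lemma gm (k : ℕ) : MapsTo (g k) O' O := fun _ hw => EO (T'm k hw)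

lemma gc (k : ℕ) : ContinuousOn (g k) O' := fun w hw => by
  have := vc
  exact ((Ed (T'm k hw).1).continuousAt.comp (f := T' k) (by unfold T'; fun_prop)).continuousWithinAt

lemma gf (k : ℕ) : InvOn (g k) (f k) O O' :=
  ⟨fun z hz => by rw [g, f, T'T, EL hz.1], fun w hw => by rw [g, f, LE (T'm k hw).1, TT']⟩

lemma O_conn : IsConnected O := by
  let j := OpenPartialHomeomorph.univUnitBall (E := ℂ)
  have i : Function.Injective j := injOn_univ.1 j.injOn
  have c : (j ⁻¹' range fun n : ℤ => E n).Countable := (countable_range _).preimage i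
  have := (c.isConnected_compl_of_one_lt_rank (by simp)).image j (j.continuousOn.mono (subset_univ _))
  convert this
  ext z
  constructor
  · intro hz
    refine ⟨j.symm z, fun ⟨n, e⟩ => hz.2 ⟨n, ?_⟩, j.right_inv hz.1⟩
    rw [j.right_inv hz.1] at e
    rw [← e, LE (intS n (mem_ball_self (by norm_num)))]
  · rintro ⟨x, hx, rfl⟩
    have m : j x ∈ ball (0 : ℂ) 1 := j.map_source trivial
    exact ⟨m, fun ⟨n, e⟩ => hx ⟨n, by simp only [e, EL m]⟩⟩

lemma O'_conn : IsConnected O' :=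
  (gf 0).bijOn (fm 0) (gm 0) |>.image_eq ▸ O_conn.image _ (fs 0).continuousOn

lemma circ (t : ℝ) : (1 / 4 : ℂ) * exp (t * I) ∈ S \ Z := punct (n := 0) ⟨by simp; norm_num, by simp⟩

lemma O_nsc : ¬ IsSimplyConnected O :=
  nsc O_open (Lc.mono inter_subset_left) (fun ⟨_, h, e⟩ => h.2 ⟨0, by simp [e]⟩)
    (β := fun t => E (1 / 4 * exp (t * I))) (continuous_iff_continuousAt.2 fun t =>
      (Ed (circ t).1).continuousAt.comp (f := fun t : ℝ => (1 / 4 : ℂ) * exp (t * I)) (by fun_prop))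
    (fun t => EO (circ t)) (by simp) fun t => by rw [LE (circ t).1, LE (circ 0).1]; simp

lemma O'_nsc : ¬ IsSimplyConnected O' :=
  nsc O'_open continuousOn_id (fun ⟨_, h, e⟩ => h.2 ⟨0, by simp, by simpa using e.symm⟩)
    (β := fun t => 1 / 4 * exp (t * I)) (by fun_prop)
    (fun t => ⟨(circ t).1, fun ⟨n, _, e⟩ => (circ t).2 ⟨n, e⟩⟩) (by simp) fun t => by simp

lemma det_eq (A : ℂ →L[ℝ] ℂ) : A.det = (A 1).re * (A I).im - (A I).re * (A 1).im := by
  rw [ContinuousLinearMap.det, ← LinearMap.det_toMatrix basisOneI, Matrix.det_fin_two]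
  simp [LinearMap.toMatrix_apply]

noncomputable def tt (k : ℕ) (z : ℂ) : ℝ := 1 + deriv χ ((L z).re - k)

lemma tt1 (k : ℕ) (z : ℂ) : 1 ≤ tt k z := le_add_of_nonneg_right Real.smoothTransition.monotone.deriv_nonneg

lemma fd (k : ℕ) {z : ℂ} (hz : z ∈ O) : ∃ N : ℝ, 0 < N ∧ (fderiv ℝ (f k) z).det = tt k z * N ∧
    ‖fderiv ℝ (f k) z 1‖ ^ 2 + ‖fderiv ℝ (f k) z I‖ ^ 2 = (tt k z ^ 2 + 1) * N := by
  have d := (Ld hz.1).differentiableAt.hasDerivAt
  have c0 : deriv L z ≠ 0 := fun h => by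
    have := ((Ed (LS hz.1)).differentiableAt.hasDerivAt.comp z d).unique ((hasDerivAt_id z).congr_of_eventuallyEq
      (eventually_of_mem (isOpen_ball.mem_nhds hz.1) fun w hw => EL hw))
    simp [h] at this
  generalize deriv L z = c at *
  have d1 := d.hasFDerivAt.restrictScalars ℝ
  have d2 := ofRealCLM.hasFDerivAt.comp z (((Real.smoothTransition.contDiff (n := 1)).differentiable (by simp)
    _).hasDerivAt.comp_hasFDerivAt z ((reCLM.hasFDerivAt.comp z d1).sub_const (k : ℝ)))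
  have d3 : HasFDerivAt (f k) _ z := (d1.sub_const (k : ℂ)).add d2
  refine ⟨normSq c, normSq_pos.2 c0, ?_, ?_⟩
  · rw [det_eq, d3.fderiv]; simp [tt, normSq_apply]; ring
  · rw [d3.fderiv, ← normSq_eq_norm_sq, ← normSq_eq_norm_sq]; simp [tt, normSq_apply]; ring

lemma lim {p : ℝ} (hp : 0 ≤ p) : Tendsto (fun k => ∫⁻ z in O, ENNReal.ofReal (tt k z ^ p)) atTop
    (𝓝 (volume O)) := by
  have b : ∀ t : ℝ, t < 0 → deriv χ t = 0 := fun t ht => by
    rw [Filter.EventuallyEq.deriv_eq (f := fun _ => (0 : ℝ)) ((gt_mem_nhds ht).mono fun s hs =>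
      Real.smoothTransition.zero_of_nonpos hs.le)]; simp
  have a : ∀ t : ℝ, 1 < t → deriv χ t = 0 := fun t ht => by
    rw [Filter.EventuallyEq.deriv_eq (f := fun _ => (1 : ℝ)) ((lt_mem_nhds ht).mono fun s hs =>
      Real.smoothTransition.one_of_one_le hs.le)]; simp
  obtain ⟨M, hM⟩ := ((Real.smoothTransition.contDiff (n := 1)).continuous_deriv
    le_rfl).bounded_above_of_compact_support (HasCompactSupport.intro isCompact_Icc (K := Icc 0 1)
      fun t ht => by
        rcases not_and_or.1 ht with h | h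
        exacts [b t (not_le.1 h), a t (not_le.1 h)])
  rw [← setLIntegral_one]
  refine tendsto_lintegral_of_dominated_convergence (fun _ => ENNReal.ofReal ((1 + M) ^ p)) (fun k => ?_)
    (fun k => .of_forall fun z => ENNReal.ofReal_le_ofReal ?_) ?_ (.of_forall fun z => ?_)
  · have := measurable_deriv χ
    unfold tt L
    fun_prop
  · have := tt1 k z
    refine Real.rpow_le_rpow (by linarith) ?_ hp
    exact add_le_add_right ((le_abs_self _).trans (hM _)) 1
  · rw [setLIntegral_const]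
    exact ENNReal.mul_ne_top ENNReal.ofReal_ne_top
      ((measure_mono inter_subset_left).trans_lt measure_ball_lt_top).ne
  · refine tendsto_const_nhds.congr' ?_
    filter_upwards [tendsto_natCast_atTop_atTop.eventually (eventually_gt_atTop (L z).re)] with k hk
    simp [tt, b _ (sub_neg.2 hk)]

lemma intO {F : Type} [NormedAddCommGroup F] [NormedSpace ℝ F] {Ω : Set ℂ} (ho : IsOpen Ω)
    {f : ℂ → F} (hf : LocallyIntegrableOn f Ω) {ψ φ : ℂ → ℝ} (c : Continuous ψ)
    (h2 : HasCompactSupport φ) (h3 : tsupport φ ⊆ Ω) (h4 : tsupport ψ ⊆ tsupport φ) :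
    IntegrableOn (fun x => ψ x • f x) Ω :=
  ((hf.integrableOn_compact_subset h3 h2).continuousOn_smul c.continuousOn h2).of_forall_sdiff_eq_zero
    ho.measurableSet fun x hx => by
      rw [image_eq_zero_of_notMem_tsupport fun k => hx.2 (h4 k), zero_smul]

lemma wk {Ω : Set ℂ} (ho : IsOpen Ω) {f : ℂ → ℂ} (hf : ContDiffOn ℝ 1 f Ω) {φ : ℂ → ℝ}
    (h1 : ContDiff ℝ ∞ φ) (h2 : HasCompactSupport φ) (h3 : tsupport φ ⊆ Ω) (v : ℂ) :
    ∫ x in Ω, fderiv ℝ φ x v • f x = -∫ x in Ω, φ x • fderiv ℝ f x v := by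
  have t := tsupport_fderiv_apply_subset (f := φ) ℝ v
  have z1 : ∀ x ∉ Ω, φ x = 0 := fun x hx => image_eq_zero_of_notMem_tsupport fun k => hx (h3 k)
  have z2 : ∀ x ∉ Ω, fderiv ℝ φ x v = 0 := fun x hx =>
    image_eq_zero_of_notMem_tsupport (f := fun x => fderiv ℝ φ x v) fun k => hx (h3 (t k))
  have mo := ho.measurableSet
  have l1 := hf.continuousOn.locallyIntegrableOn (μ := volume) mo
  have l2 := ((hf.continuousOn_fderiv_of_isOpen ho le_rfl).clm_apply
    (continuousOn_const (c := v))).locallyIntegrableOn (μ := volume) mo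
  have J : ∀ {f : ℂ → ℂ} {ψ : ℂ → ℝ}, IntegrableOn (fun x => ψ x • f x) Ω → (∀ x ∉ Ω, ψ x = 0) →
      Integrable fun x => ψ x • f x := fun hf hz => integrableOn_univ.1 (hf.of_forall_sdiff_eq_zero
        .univ fun x hx => by simp [hz x hx.2])
  rw [setIntegral_eq_integral_of_forall_compl_eq_zero fun x hx => by simp [z2 x hx],
    setIntegral_eq_integral_of_forall_compl_eq_zero fun x hx => by simp [z1 x hx],
    integral_smul_fderiv_eq_neg_fderiv_smul_of_integrable
      (J (intO ho l1 ((h1.continuous_fderiv (by simp)).clm_apply continuous_const) h2 h3 t) z2)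
      (J (intO ho l2 h1.continuous h2 h3 subset_rfl) z1) (J (intO ho l1 h1.continuous h2 h3 subset_rfl) z1)
      (fun x _ => h1.differentiable (by simp) x)
      (fun x hx => (hf.differentiableOn (by simp)).differentiableAt (ho.mem_nhds (h3 hx))), neg_neg]

end Pool.Agent.H.MP_084a52_an
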